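import Mathlib

set_option autoImplicit false

namespace Pool.Agent.Results.MP_909498_an.NoBoundedOrbit

open Filter Topology MeasureTheory
open scoped ENNReal InnerProductSpace

section abstract

variable {H : Type*} [NormedAddCommGroup H] [InnerProductSpace ℂ H]

/-- `f` is a frame sequence: a frame for its closed linear span. -/
def IsFrameSeq {ι : Type*} (f : ι → H) : Prop :=
  ∃ A B : ℝ, 0 < A ∧ 0 < B ∧ ∀ g ∈ (Submodule.span ℂ (Set.range f)).topologicalClosure,
    Summable (fun k => ‖⟪f k, g⟫_ℂ‖ ^ 2) ∧ A * ‖g‖ ^ 2 ≤ ∑' k, ‖⟪f k, g⟫_ℂ‖ ^ 2 ∧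
      ∑' k, ‖⟪f k, g⟫_ℂ‖ ^ 2 ≤ B * ‖g‖ ^ 2

/-- `f` is a Riesz basis for its closed linear span. -/
def IsRieszSeq {ι : Type*} (f : ι → H) : Prop :=
  ∃ A B : ℝ, 0 < A ∧ 0 < B ∧ ∀ (s : Finset ι) (c : ι → ℂ),
    A * ∑ k ∈ s, ‖c k‖ ^ 2 ≤ ‖∑ k ∈ s, c k • f k‖ ^ 2 ∧
      ‖∑ k ∈ s, c k • f k‖ ^ 2 ≤ B * ∑ k ∈ s, ‖c k‖ ^ 2

/-- coefficient space -/
abbrev L2 (ι : Type) : Type := lp (fun _ : ι => ℂ) 2

theorem memlp_iff {ι : Type} {f : ι → ℂ} : Memℓp f 2 ↔ Summable fun n => ‖f n‖ ^ 2 := by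
  have h2 : (2 : ℝ≥0∞).toReal = ((2 : ℕ) : ℝ) := by norm_num
  rw [memℓp_gen_iff (by norm_num)]
  simp_rw [h2, Real.rpow_natCast]

theorem norm_sq {ι : Type} (c : L2 ι) : ‖c‖ ^ 2 = ∑' n, ‖c n‖ ^ 2 := by
  have h2 : (2 : ℝ≥0∞).toReal = ((2 : ℕ) : ℝ) := by norm_num
  have := lp.norm_rpow_eq_tsum (p := 2) (by norm_num) c
  simp_rw [h2, Real.rpow_natCast] at this
  exact this

variable [CompleteSpace H]

/-- Existence of the synthesis operator. -/
theorem exists_synthesis {ι : Type} [DecidableEq ι] {f : ι → H} (hf : IsFrameSeq f) :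
    ∃ (U : L2 ι →L[ℂ] H) (A : ℝ), 0 < A ∧ (∀ k, U (lp.single 2 k 1) = f k) ∧
      ∀ g ∈ (Submodule.span ℂ (Set.range f)).topologicalClosure,
        A * ‖g‖ ^ 2 ≤ ‖ContinuousLinearMap.adjoint U g‖ ^ 2 := by
  obtain ⟨A, B, hA, hB, h⟩ := hf
  set K := (Submodule.span ℂ (Set.range f)).topologicalClosure with hK
  have hKc : IsClosed (K : Set H) := Submodule.isClosed_topologicalClosure _
  have : CompleteSpace K := hKc.completeSpace_coe
  have hfK : ∀ k, f k ∈ K := fun k =>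
    Submodule.le_topologicalClosure _ (Submodule.subset_span ⟨k, rfl⟩)
  have hproj : ∀ (g : H) (k : ι), ⟪f k, g⟫_ℂ = ⟪f k, K.starProjection g⟫_ℂ := by
    intro g k
    have h1 : g - K.starProjection g ∈ Kᗮ := Submodule.sub_starProjection_mem_orthogonal _
    have h2 := (Submodule.mem_orthogonal K _).mp h1 (f k) (hfK k)
    rw [inner_sub_right, sub_eq_zero] at h2
    exact h2
  have hsum : ∀ g : H, Summable fun k => ‖⟪f k, g⟫_ℂ‖ ^ 2 := by
    intro g
    simp_rw [hproj g]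
    exact (h _ (Submodule.starProjection_apply_mem _ _)).1
  let An : H →L[ℂ] L2 ι := LinearMap.mkContinuous
    { toFun := fun g => ⟨fun k => ⟪f k, g⟫_ℂ, memlp_iff.mpr (hsum g)⟩
      map_add' := by
        intro g g'
        ext k
        exact inner_add_right _ _ _
      map_smul' := by
        intro c g
        ext k
        exact inner_smul_right _ _ _ } (Real.sqrt B) (by
      intro g
      apply le_of_sq_le_sq _ (by positivity)
      rw [mul_pow, Real.sq_sqrt hB.le, norm_sq]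
      have h1 := (h _ (Submodule.starProjection_apply_mem K g)).2.2
      have h2 : ‖K.starProjection g‖ ≤ ‖g‖ := K.norm_starProjection_apply_le g
      calc ∑' k, ‖⟪f k, g⟫_ℂ‖ ^ 2 = ∑' k, ‖⟪f k, K.starProjection g⟫_ℂ‖ ^ 2 := by
            simp_rw [← hproj g]
        _ ≤ B * ‖K.starProjection g‖ ^ 2 := h1
        _ ≤ B * ‖g‖ ^ 2 := mul_le_mul_of_nonneg_left (pow_le_pow_left₀ (norm_nonneg _) h2 2) hB.le)
  have hAn : ∀ (g : H) (k : ι), An g k = ⟪f k, g⟫_ℂ := fun g k => rfl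
  refine ⟨ContinuousLinearMap.adjoint An, A, hA, ?_, ?_⟩
  · intro k
    apply ext_inner_right ℂ
    intro g
    rw [ContinuousLinearMap.adjoint_inner_left, lp.inner_single_left, hAn]
    simp
  · intro g hg
    rw [ContinuousLinearMap.adjoint_adjoint, norm_sq]
    exact (h g hg).2.1

theorem map_single {ι : Type} [DecidableEq ι] (U : L2 ι →L[ℂ] H) (i : ι) (z : ℂ) :
    U (lp.single 2 i z) = z • U (lp.single 2 i 1) := by
  rw [← map_smul, ← lp.single_smul, smul_eq_mul, mul_one]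

theorem hasSum_map {ι : Type} [DecidableEq ι] (U : L2 ι →L[ℂ] H) (c : L2 ι) :
    HasSum (fun i => c i • U (lp.single 2 i 1)) (U c) := by
  have h := U.hasSum (lp.hasSum_single (p := 2) (by norm_num) c)
  refine h.congr_fun ?_ |> id
  intro i
  exact (map_single U i (c i)).symm

theorem ext_single {ι : Type} [DecidableEq ι] {U V : L2 ι →L[ℂ] H}
    (h : ∀ i, U (lp.single 2 i 1) = V (lp.single 2 i 1)) : U = V := by
  ext c
  have h1 := hasSum_map U c
  have h2 := hasSum_map V c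
  simp_rw [h] at h1
  exact h1.unique h2

/-- A frame sequence whose synthesis operator is injective is a Riesz sequence. -/
theorem riesz_of_injective {ι : Type} [DecidableEq ι] {f : ι → H} (U : L2 ι →L[ℂ] H) {A : ℝ}
    (hA : 0 < A) (hU : ∀ k, U (lp.single 2 k 1) = f k)
    (hl : ∀ g ∈ (Submodule.span ℂ (Set.range f)).topologicalClosure,
        A * ‖g‖ ^ 2 ≤ ‖ContinuousLinearMap.adjoint U g‖ ^ 2)
    (hinj : ∀ c, U c = 0 → c = 0) : IsRieszSeq f := by
  set K := (Submodule.span ℂ (Set.range f)).topologicalClosure with hK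
  have hKc : IsClosed (K : Set H) := Submodule.isClosed_topologicalClosure _
  have : CompleteSpace K := hKc.completeSpace_coe
  have hUK : ∀ c, U c ∈ K := by
    intro c
    refine hKc.mem_of_tendsto (hasSum_map U c) (Filter.Eventually.of_forall fun s => ?_)
    apply Submodule.sum_mem
    intro i _
    apply Submodule.smul_mem
    rw [hU]
    exact Submodule.le_topologicalClosure _ (Submodule.subset_span ⟨i, rfl⟩)
  let An : K →L[ℂ] L2 ι := (ContinuousLinearMap.adjoint U) ∘L K.subtypeL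
  have hAn : ∀ g : K, An g = ContinuousLinearMap.adjoint U g := fun g => rfl
  -- `An` is bounded below
  have hbelow : AntilipschitzWith (Real.toNNReal (Real.sqrt A)⁻¹) An := by
    apply ContinuousLinearMap.antilipschitz_of_bound
    intro g
    rw [Real.coe_toNNReal _ (by positivity)]
    have h1 := hl g g.2
    have h2 : Real.sqrt A * ‖g‖ ≤ ‖An g‖ := by
      apply le_of_sq_le_sq _ (norm_nonneg _)
      rw [mul_pow, Real.sq_sqrt hA.le]
      exact h1
    rw [inv_mul_eq_div, le_div_iff₀ (by positivity), mul_comm]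
    exact h2
  have hclosed : IsClosed (Set.range An) := hbelow.isClosed_range An.uniformContinuous
  have hrange : LinearMap.range (An : K →ₗ[ℂ] L2 ι) = ⊤ := by
    have hc : IsClosed ((LinearMap.range (An : K →ₗ[ℂ] L2 ι) : Submodule ℂ (L2 ι)) : Set (L2 ι)) := by
      rw [LinearMap.coe_range]; exact hclosed
    have : CompleteSpace (LinearMap.range (An : K →ₗ[ℂ] L2 ι)) := hc.completeSpace_coe
    rw [← Submodule.orthogonal_eq_bot_iff, Submodule.eq_bot_iff]
    intro c hc'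
    apply hinj
    have h3 : ⟪U c, U c⟫_ℂ = 0 := by
      have h4 := (Submodule.mem_orthogonal' _ _).mp hc' (An ⟨U c, hUK c⟩) ⟨_, rfl⟩
      rw [hAn, ContinuousLinearMap.adjoint_inner_right] at h4
      exact h4
    exact inner_self_eq_zero.mp h3
  have hlow : ∀ c : L2 ι, A * ‖c‖ ^ 2 ≤ ‖U c‖ ^ 2 := by
    intro c
    obtain ⟨g, hg⟩ : ∃ g : K, An g = c := by
      have : c ∈ LinearMap.range (An : K →ₗ[ℂ] L2 ι) := by rw [hrange]; trivial
      exact this
    have h1 : ‖c‖ ^ 2 ≤ ‖U c‖ * ‖(g : H)‖ := by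
      have h2 : ((‖c‖ ^ 2 : ℝ) : ℂ) = ⟪U c, (g : H)⟫_ℂ := by
        have h3 : ⟪c, c⟫_ℂ = ((‖c‖ : ℝ) : ℂ) ^ 2 := inner_self_eq_norm_sq_to_K (𝕜 := ℂ) c
        rw [Complex.ofReal_pow, ← h3]
        nth_rewrite 2 [← hg]
        rw [hAn, ContinuousLinearMap.adjoint_inner_right]
      have h4 := norm_inner_le_norm (𝕜 := ℂ) (U c) (g : H)
      rw [← h2, Complex.norm_real, Real.norm_eq_abs, abs_of_nonneg (by positivity)] at h4
      exact h4
    have h5 : A * ‖(g : H)‖ ^ 2 ≤ ‖c‖ ^ 2 := by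
      have := hl g g.2
      rw [← hAn, hg] at this
      exact this
    have h6 : 0 ≤ ‖c‖ := norm_nonneg _
    have h7 : 0 ≤ ‖U c‖ := norm_nonneg _
    have h8 : 0 ≤ ‖(g : H)‖ := norm_nonneg _
    rcases h6.eq_or_lt with h0 | h0
    · rw [← h0]; simp only [ne_eq, OfNat.ofNat_ne_zero, not_false_eq_true, zero_pow, mul_zero]
      positivity
    · have h9 : A * (‖c‖ ^ 2) ^ 2 ≤ ‖U c‖ ^ 2 * ‖c‖ ^ 2 := by
        calc A * (‖c‖ ^ 2) ^ 2 ≤ A * (‖U c‖ * ‖(g : H)‖) ^ 2 :=
              mul_le_mul_of_nonneg_left (pow_le_pow_left₀ (by positivity) h1 2) hA.le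
          _ = ‖U c‖ ^ 2 * (A * ‖(g : H)‖ ^ 2) := by ring
          _ ≤ ‖U c‖ ^ 2 * ‖c‖ ^ 2 := mul_le_mul_of_nonneg_left h5 (by positivity)
      have h10 : 0 < ‖c‖ ^ 2 := by positivity
      have h11 : (A * ‖c‖ ^ 2) * ‖c‖ ^ 2 ≤ ‖U c‖ ^ 2 * ‖c‖ ^ 2 := by
        calc _ = A * (‖c‖ ^ 2) ^ 2 := by ring
          _ ≤ _ := h9
      exact le_of_mul_le_mul_right h11 h10
  refine ⟨A, ‖U‖ ^ 2 + 1, hA, by positivity, fun s c => ?_⟩
  set x : L2 ι := ∑ k ∈ s, lp.single 2 k (c k) with hx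
  have hUx : U x = ∑ k ∈ s, c k • f k := by
    rw [hx, map_sum]
    apply Finset.sum_congr rfl
    intro k _
    rw [map_single, hU]
  have hxn : ‖x‖ ^ 2 = ∑ k ∈ s, ‖c k‖ ^ 2 := by
    have := lp.norm_sum_single (p := 2) (E := fun _ : ι => ℂ) (by norm_num) c s
    have h2 : (2 : ℝ≥0∞).toReal = ((2 : ℕ) : ℝ) := by norm_num
    simp_rw [h2, Real.rpow_natCast] at this
    exact this
  constructor
  · rw [← hxn, ← hUx]; exact hlow x
  · rw [← hxn, ← hUx]
    have h1 := U.le_opNorm x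
    calc ‖U x‖ ^ 2 ≤ (‖U‖ * ‖x‖) ^ 2 := pow_le_pow_left₀ (norm_nonneg _) h1 2
      _ = ‖U‖ ^ 2 * ‖x‖ ^ 2 := by ring
      _ ≤ (‖U‖ ^ 2 + 1) * ‖x‖ ^ 2 := by nlinarith [sq_nonneg ‖x‖]

/-- Permutation of the coordinates. -/
noncomputable def perm (τ : Equiv.Perm ℕ) : L2 ℕ →L[ℂ] L2 ℕ :=
  LinearMap.mkContinuous
    { toFun := fun c => ⟨fun k => c (τ k), memlp_iff.mpr
        ((Equiv.summable_iff τ (f := fun k => ‖c k‖ ^ 2)).mpr (memlp_iff.mp (lp.memℓp c)))⟩
      map_add' := fun _ _ => rfl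
      map_smul' := fun _ _ => rfl } 1 (by
    intro c
    apply le_of_sq_le_sq _ (by positivity)
    rw [one_mul, norm_sq, norm_sq]
    exact (Equiv.tsum_eq τ (fun k => ‖c k‖ ^ 2)).le)

theorem perm_apply (τ : Equiv.Perm ℕ) (c : L2 ℕ) (k : ℕ) : perm τ c k = c (τ k) := rfl

theorem perm_norm_sq (τ : Equiv.Perm ℕ) (c : L2 ℕ) : ‖perm τ c‖ ^ 2 = ‖c‖ ^ 2 := by
  rw [norm_sq, norm_sq]
  exact (Equiv.tsum_eq τ (fun k => ‖c k‖ ^ 2))

/-- The right shift. -/
noncomputable def shift : L2 ℕ →L[ℂ] L2 ℕ :=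
  LinearMap.mkContinuous
    { toFun := fun c => ⟨fun k => Nat.casesOn k 0 fun m => c m, memlp_iff.mpr (by
        rw [← summable_nat_add_iff 1]
        exact memlp_iff.mp (lp.memℓp c))⟩
      map_add' := by
        intro g h
        ext n
        cases n with
        | zero => change (0 : ℂ) = 0 + 0; rw [add_zero]
        | succ n => rfl
      map_smul' := by
        intro c g
        ext n
        cases n with
        | zero => change (0 : ℂ) = c • 0; rw [smul_zero]
        | succ n => rfl } 1 (by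
    intro c
    apply le_of_sq_le_sq _ (by positivity)
    rw [one_mul, norm_sq, norm_sq]
    apply le_of_eq
    have hs : Summable fun n => ‖(⟨fun k => Nat.casesOn k 0 fun m => c m, memlp_iff.mpr (by
        rw [← summable_nat_add_iff 1]
        exact memlp_iff.mp (lp.memℓp c))⟩ : L2 ℕ) n‖ ^ 2 := memlp_iff.mp (lp.memℓp _)
    rw [LinearMap.coe_mk, AddHom.coe_mk, hs.tsum_eq_zero_add]
    simp)

theorem shift_zero (c : L2 ℕ) : shift c 0 = 0 := rfl

theorem shift_succ (c : L2 ℕ) (n : ℕ) : shift c (n + 1) = c n := rfl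

theorem shift_norm_sq (c : L2 ℕ) : ‖shift c‖ ^ 2 = ‖c‖ ^ 2 := by
  rw [norm_sq, norm_sq, (memlp_iff.mp (lp.memℓp (shift c))).tsum_eq_zero_add, shift_zero]
  simp [shift_succ]

theorem shift_single (i : ℕ) : shift (lp.single 2 i 1) = lp.single 2 (i + 1) 1 := by
  ext n
  cases n with
  | zero => rw [shift_zero, lp.single_apply_ne]; omega
  | succ n =>
    rw [shift_succ]
    by_cases h : n = i
    · subst h; simp
    · rw [lp.single_apply_ne _ _ _ h, lp.single_apply_ne]; omega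

/-- The core: a kernel that is invariant under the shift and homogeneous is trivial. -/
theorem core {f : ℕ → H} (U : L2 ℕ →L[ℂ] H) (hU : ∀ k, U (lp.single 2 k 1) = f k)
    (hf0 : f 0 ≠ 0)
    (hsym : ∀ m m' : ℕ, ∃ τ : Equiv.Perm ℕ, τ m = m' ∧ ∃ W : H →ₗᵢ[ℂ] H, ∀ k, W (f (τ k)) = f k)
    (hshift : ∀ c, U c = 0 → U (shift c) = 0) : ∀ c, U c = 0 → c = 0 := by
  set N : Submodule ℂ (L2 ℕ) := LinearMap.ker (U : L2 ℕ →ₗ[ℂ] H) with hN
  have hmem : ∀ c, c ∈ N ↔ U c = 0 := fun c => Iff.rfl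
  have hNc : IsClosed (N : Set (L2 ℕ)) := ContinuousLinearMap.isClosed_ker U
  have : CompleteSpace N := hNc.completeSpace_coe
  set e : ℕ → L2 ℕ := fun j => N.starProjection (lp.single 2 j 1) with he
  have heN : ∀ j, e j ∈ N := fun j => Submodule.starProjection_apply_mem _ _
  have hinner : ∀ (j : ℕ) (x : L2 ℕ), x ∈ N → ⟪e j, x⟫_ℂ = x j := by
    intro j x hx
    have h1 : lp.single 2 j 1 - e j ∈ Nᗮ := Submodule.sub_starProjection_mem_orthogonal _
    have h2 := (Submodule.mem_orthogonal' N _).mp h1 x hx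
    rw [inner_sub_left, sub_eq_zero, lp.inner_single_left] at h2
    rw [← h2]; simp
  have hself : ∀ j, ((‖e j‖ ^ 2 : ℝ) : ℂ) = e j j := by
    intro j
    rw [← hinner j (e j) (heN j), inner_self_eq_norm_sq_to_K, Complex.ofReal_pow]
    rfl
  -- the norms are all equal
  have hle : ∀ m m', ‖e m'‖ ≤ ‖e m‖ := by
    intro m m'
    obtain ⟨τ, hτ, W, hW⟩ := hsym m m'
    have hUW : U ∘L perm τ = W.toContinuousLinearMap ∘L U := by
      apply ext_single
      intro i
      have h1 : perm τ (lp.single 2 i 1) = lp.single 2 (τ.symm i) 1 := by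
        ext k
        rw [perm_apply]
        by_cases h : τ k = i
        · have h' : k = τ.symm i := by rw [← h]; simp
          rw [h, h']; simp
        · have h' : k ≠ τ.symm i := by
            intro hk; apply h; rw [hk]; simp
          rw [lp.single_apply_ne _ _ _ h, lp.single_apply_ne _ _ _ h']
      change U (perm τ (lp.single 2 i 1)) = W (U (lp.single 2 i 1))
      rw [h1, hU, hU, ← hW (τ.symm i), Equiv.apply_symm_apply]
    have hyN : perm τ (e m') ∈ N := by
      rw [hmem]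
      have h2 := congrArg (fun T : L2 ℕ →L[ℂ] H => T (e m')) hUW
      change U (perm τ (e m')) = W (U (e m')) at h2
      rw [h2, (hmem _).mp (heN m'), map_zero]
    have h3 := hinner m _ hyN
    rw [perm_apply, hτ, ← hself] at h3
    have h4 := norm_inner_le_norm (𝕜 := ℂ) (e m) (perm τ (e m'))
    rw [h3, Complex.norm_real, Real.norm_eq_abs, abs_of_nonneg (by positivity)] at h4
    have h5 : ‖perm τ (e m')‖ = ‖e m'‖ := by
      have := perm_norm_sq τ (e m')
      exact (sq_eq_sq₀ (norm_nonneg _) (norm_nonneg _)).mp this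
    rw [h5] at h4
    rcases (norm_nonneg (e m')).eq_or_lt with h0 | h0
    · rw [← h0]; exact norm_nonneg _
    · rw [sq] at h4
      exact le_of_mul_le_mul_right h4 h0
  have heq : ∀ j, ‖e j‖ ^ 2 = ‖e 0‖ ^ 2 := fun j => by
    rw [le_antisymm (hle 0 j) (hle j 0)]
  -- the shift maps `e j` to `e (j + 1)`
  have hstep : ∀ j, shift (e j) = e (j + 1) := by
    intro j
    have hyN : shift (e j) ∈ N := by
      rw [hmem]; exact hshift _ ((hmem _).mp (heN j))
    have h1 := hinner (j + 1) _ hyN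
    rw [shift_succ, ← hself] at h1
    have h2 : ⟪e (j + 1) - shift (e j), e (j + 1) - shift (e j)⟫_ℂ = 0 := by
      have h3 : ⟪shift (e j), e (j + 1)⟫_ℂ = ((‖e j‖ ^ 2 : ℝ) : ℂ) := by
        rw [← inner_conj_symm, h1, Complex.conj_ofReal]
      have h4 : ⟪e (j + 1), e (j + 1)⟫_ℂ = ((‖e (j + 1)‖ ^ 2 : ℝ) : ℂ) := by
        rw [inner_self_eq_norm_sq_to_K, Complex.ofReal_pow]; rfl
      have h5 : ⟪shift (e j), shift (e j)⟫_ℂ = ((‖e j‖ ^ 2 : ℝ) : ℂ) := by
        rw [inner_self_eq_norm_sq_to_K, ← shift_norm_sq, Complex.ofReal_pow]; rfl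
      rw [inner_sub_left, inner_sub_right, inner_sub_right, h1, h3, h4, h5, heq j, heq (j + 1)]
      ring
    have h6 := inner_self_eq_zero.mp h2
    exact (sub_eq_zero.mp h6).symm
  -- `e 0` is a multiple of the first unit vector
  have hz : ∀ j, e 0 (j + 1) = 0 := by
    intro j
    have h1 : e (j + 1) 0 = 0 := by rw [← hstep]; rfl
    rw [← hinner 0 _ (heN (j + 1))] at h1
    rw [← hinner (j + 1) _ (heN 0), ← inner_conj_symm, h1, map_zero]
  have he0 : e 0 = ((‖e 0‖ ^ 2 : ℝ) : ℂ) • lp.single 2 0 1 := by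
    ext k
    cases k with
    | zero =>
      change e 0 0 = ((‖e 0‖ ^ 2 : ℝ) : ℂ) • (lp.single 2 0 1 : L2 ℕ) 0
      rw [← hself 0]; simp
    | succ k =>
      change e 0 (k + 1) = ((‖e 0‖ ^ 2 : ℝ) : ℂ) • (lp.single 2 0 1 : L2 ℕ) (k + 1)
      rw [hz, lp.single_apply_ne _ _ _ (by omega), smul_zero]
  have hzero : ‖e 0‖ ^ 2 = 0 := by
    by_contra hne
    apply hf0
    have h1 := (hmem _).mp (heN 0)
    rw [he0, map_smul, hU] at h1
    rcases smul_eq_zero.mp h1 with h | h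
    · exact absurd (by exact_mod_cast h) hne
    · exact h
  intro c hc
  ext j
  rw [← hinner j c ((hmem c).mpr hc)]
  have h1 : e j = 0 := by
    have := heq j
    rw [hzero] at this
    exact norm_eq_zero.mp (pow_eq_zero_iff (two_ne_zero) |>.mp this)
  rw [h1, inner_zero_left]
  rfl

end abstract

/-- The Hilbert space `L²(ℝ)`. -/
abbrev LR : Type := Lp ℂ 2 (volume : Measure ℝ)

/-- Translation `(T_a f)(x) = f (x - a)` on `L²(ℝ)`. -/
noncomputable def T (a : ℝ) : LR →ₗᵢ[ℂ] LR :=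
  Lp.compMeasurePreservingₗᵢ ℂ (fun x => x - a) (measurePreserving_sub_right volume a)

/-- The shift-invariant system `{T_{kb} φ}`, `k ∈ ℤ`. -/
noncomputable def system (φ : LR) (b : ℝ) (k : ℤ) : LR := T (k * b) φ

theorem T_add (a a' : ℝ) (φ : LR) : T a (T a' φ) = T (a + a') φ := by
  apply Lp.ext
  have h1 := Lp.coeFn_compMeasurePreserving (T a' φ) (measurePreserving_sub_right (volume : Measure ℝ) a)
  have h2 := Lp.coeFn_compMeasurePreserving φ (measurePreserving_sub_right (volume : Measure ℝ) a')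
  have h3 := Lp.coeFn_compMeasurePreserving φ (measurePreserving_sub_right (volume : Measure ℝ) (a + a'))
  have h4 := (measurePreserving_sub_right (volume : Measure ℝ) a).quasiMeasurePreserving.ae_eq_comp h2
  refine h1.trans (h4.trans ?_)
  have h5 : ((⇑φ ∘ fun x : ℝ => x - a') ∘ fun x : ℝ => x - a) = ⇑φ ∘ fun x : ℝ => x - (a + a') := by
    ext x
    simp only [Function.comp_apply]
    congr 1
    ring
  rw [h5]
  exact h3.symm

theorem IsFrameSeq.reindex {H : Type*} [NormedAddCommGroup H] [InnerProductSpace ℂ H]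
    {ι κ : Type*} {f : κ → H} (hf : IsFrameSeq f) (σ : ι ≃ κ) : IsFrameSeq (fun k => f (σ k)) := by
  obtain ⟨A, B, hA, hB, h⟩ := hf
  have hr : Set.range (fun k => f (σ k)) = Set.range f := σ.surjective.range_comp f
  refine ⟨A, B, hA, hB, fun g hg => ?_⟩
  rw [hr] at hg
  obtain ⟨h1, h2, h3⟩ := h g hg
  refine ⟨(Equiv.summable_iff σ (f := fun k => ‖⟪f k, g⟫_ℂ‖ ^ 2)).mpr h1, ?_, ?_⟩
  · rw [Equiv.tsum_eq σ (fun k => ‖⟪f k, g⟫_ℂ‖ ^ 2)]; exact h2
  · rw [Equiv.tsum_eq σ (fun k => ‖⟪f k, g⟫_ℂ‖ ^ 2)]; exact h3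

theorem IsRieszSeq.reindex {H : Type*} [NormedAddCommGroup H] [InnerProductSpace ℂ H]
    {ι κ : Type*} {f : κ → H} (σ : ι ≃ κ) (hf : IsRieszSeq (fun k => f (σ k))) : IsRieszSeq f := by
  obtain ⟨A, B, hA, hB, h⟩ := hf
  refine ⟨A, B, hA, hB, fun s c => ?_⟩
  have h1 := h (s.map σ.symm.toEmbedding) (fun k => c (σ k))
  simpa [Finset.sum_map] using h1

/-- No overcomplete frame of translates admits an `ℕ`-ordering represented by a bounded operator. -/
theorem result (φ : LR) (b : ℝ) (hφ : φ ≠ 0) (_hb : 0 < b) (hframe : IsFrameSeq (system φ b))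
    (hover : ¬ IsRieszSeq (system φ b)) (σ : ℕ ≃ ℤ) :
    ¬ ∃ V : Submodule.span ℂ (Set.range (system φ b)) →L[ℂ] LR, ∀ k : ℕ,
      V ⟨system φ b (σ k), Submodule.subset_span ⟨σ k, rfl⟩⟩ = system φ b (σ (k + 1)) := by
  rintro ⟨V, hV⟩
  apply hover
  apply IsRieszSeq.reindex σ
  obtain ⟨U, A, hA, hU, hl⟩ := exists_synthesis (hframe.reindex σ)
  apply riesz_of_injective U hA hU hl
  apply core U hU
  · intro h
    apply hφ
    have : ‖T (σ 0 * b) φ‖ = ‖φ‖ := (T (σ 0 * b)).norm_map φ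
    have h2 : T (σ 0 * b) φ = 0 := h
    rw [h2, norm_zero] at this
    exact norm_eq_zero.mp this.symm
  · intro m m'
    refine ⟨(σ.trans (Equiv.subRight (σ m - σ m'))).trans σ.symm, ?_, T ((σ m - σ m' : ℤ) * b), ?_⟩
    · simp
    · intro k
      simp only [Equiv.trans_apply, Equiv.apply_symm_apply, Equiv.subRight_apply]
      change T _ (T _ φ) = T _ φ
      rw [T_add]
      congr 2
      push_cast
      ring
  · intro c hc
    have hfin : ∀ s : Finset ℕ, ‖U (shift (∑ i ∈ s, lp.single 2 i (c i)))‖ ≤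
        ‖V‖ * ‖U (∑ i ∈ s, lp.single 2 i (c i))‖ := by
      intro s
      set w : Submodule.span ℂ (Set.range (system φ b)) :=
        ∑ i ∈ s, c i • ⟨system φ b (σ i), Submodule.subset_span ⟨σ i, rfl⟩⟩ with hw
      have h1 : U (∑ i ∈ s, lp.single 2 i (c i)) = (w : LR) := by
        rw [hw, map_sum, Submodule.coe_sum]
        apply Finset.sum_congr rfl
        intro i _
        rw [map_single, hU]
        rfl
      have h2 : U (shift (∑ i ∈ s, lp.single 2 i (c i))) = V w := by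
        rw [hw, map_sum, map_sum, map_sum]
        apply Finset.sum_congr rfl
        intro i _
        rw [map_smul, hV, ← hU (i + 1), ← shift_single]
        exact map_single (U ∘L shift) i (c i)
      rw [h1, h2]
      exact V.le_opNorm w
    have hlim : Tendsto (fun s : Finset ℕ => ∑ i ∈ s, lp.single 2 i (c i)) atTop (𝓝 c) :=
      lp.hasSum_single (p := 2) (by norm_num) c
    have h1 : Tendsto (fun s : Finset ℕ => ‖U (shift (∑ i ∈ s, lp.single 2 i (c i)))‖) atTop
        (𝓝 ‖U (shift c)‖) := ((U.continuous.comp shift.continuous).norm.tendsto c).comp hlim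
    have h2 : Tendsto (fun s : Finset ℕ => ‖V‖ * ‖U (∑ i ∈ s, lp.single 2 i (c i))‖) atTop
        (𝓝 (‖V‖ * ‖U c‖)) := (((U.continuous.norm.tendsto c).comp hlim).const_mul ‖V‖)
    have h3 := le_of_tendsto_of_tendsto' h1 h2 hfin
    rw [hc, norm_zero, mul_zero] at h3
    exact norm_le_zero_iff.mp h3

end Pool.Agent.Results.MP_909498_an.NoBoundedOrbit
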